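import Pool.Agent.Helper74.RN.St

/-! # Project RN (MP_26f0da_lc), module GMA: images -/

set_option autoImplicit false

namespace Pool.Agent.Helper94.RN

open Pool.Agent.Helper74 Pool.Agent.Helper74.RN

private theorem gma_to {G G' : Type} {S : G → G → Prop} {R : G' → G' → Prop} (g : G → G')
    (h : ∀ a b, R (g a) (g b) ↔ S a b) {l : List G} {k : ℕ} (hl : Fo S l k) :
    Fo R (l.map g) k := by
  induction hl with
  | nil => exact Fo.nil
  | skip x w k _ ih =>
    rw [List.map_cons]
    exact Fo.skip _ _ _ ih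
  | wrap x y u v j k hxy _ _ ih1 ih2 =>
    rw [List.map_cons, List.map_append, List.map_cons]
    exact Fo.wrap _ _ _ _ _ _ ((h x y).2 hxy) ih1 ih2

private theorem gma_from {G G' : Type} {S : G → G → Prop} {R : G' → G' → Prop} (g : G → G')
    (h : ∀ a b, R (g a) (g b) ↔ S a b) {z : List G'} {k : ℕ} (hz : Fo R z k) :
    ∀ l : List G, z = l.map g → Fo S l k := by
  induction hz with
  | nil =>
    intro l hl
    rw [eq_comm, List.map_eq_nil_iff] at hl
    subst hl
    exact Fo.nil
  | skip x w k _ ih =>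
    intro l hl
    rw [eq_comm, List.map_eq_cons_iff] at hl
    obtain ⟨a, l', rfl, -, hl'⟩ := hl
    exact Fo.skip _ _ _ (ih l' hl'.symm)
  | wrap x y u v j k hxy _ _ ih1 ih2 =>
    intro l hl
    rw [eq_comm, List.map_eq_cons_iff] at hl
    obtain ⟨a, l', rfl, ha, hl'⟩ := hl
    rw [List.map_eq_append_iff] at hl'
    obtain ⟨l1, l2, rfl, h1, h2⟩ := hl'
    rw [List.map_eq_cons_iff] at h2
    obtain ⟨b, l3, rfl, hb, h3⟩ := h2
    refine Fo.wrap _ _ _ _ _ _ ?_ (ih1 l1 h1.symm) (ih2 l3 h3.symm)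
    rw [← h, ha, hb]
    exact hxy

theorem hGMA : Pool.Agent.Helper74.RN.StGMA := by
  intro G G' S R g h l k
  exact ⟨fun hl => gma_to g h hl, fun hz => gma_from g h hz l rfl⟩

end Pool.Agent.Helper94.RN
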